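import Pool.Agent.R501.SP3
import Pool.Agent.W93.AU11

set_option autoImplicit false

/-! Few large Fourier coefficients for the uniform law on the elements of an automatic set, with a power saving. -/

namespace Pool.Agent.R557.AD
open Finset
open Pool.Agent.TH872
open Pool.Agent.H807R2.Dav
open Pool.Agent.W93.RD
open Pool.Agent.W93.AU
open Pool.Agent.Results.MP_122e00_nt.SparseRandomShifts (FewLarge φ)

variable {σ : Type}

/-- exponential decay of the characteristic sums in the number of the good positions -/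
lemma char_pow (B : ℕ) (δ : σ → ℕ → σ) (F : σ → Prop) (s0 : σ) (Rich : σ → Prop) (κ : ℕ) (C ρ : ℝ) (k : ℕ)
    (hG : Gro B δ F s0 Rich κ C ρ k) (hρ : 1 < ρ) (hR : ∀ s, Rich s → ∃ u v, u < v ∧ v < B ∧ δ s u = s ∧ δ s v = s)
    (c : ℝ) (hc0 : 0 < c) (hc1 : c ≤ 1 / 4) : ∃ l : ℝ, 0 < l ∧ l < 1 ∧ ∀ m, κ ≤ m → ∀ (θ : ℝ) (r : ℕ),
    2 * r ≤ gc B (Gd B c) κ m θ →
    ‖Tc B δ F m s0 θ‖ ≤ l ^ r * (1 + C ^ 2 * ((m : ℝ) + 1) ^ k) * Ac B δ F m s0 := by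
  have hC1 := hG.C1
  have hC0 : 0 < C := by linarith
  obtain ⟨q, hq⟩ : ∃ q, q = 1 - c / C := ⟨_, rfl⟩
  have hcC : c / C ≤ 1 / 4 := (div_le_self hc0.le hC1).trans hc1
  have hcC0 : 0 < c / C := by positivity
  have hq0 : 0 < q := by rw [hq]; linarith
  have hq1 : q < 1 := by rw [hq]; linarith
  obtain ⟨l, hl⟩ : ∃ l, l = max q (1 / ρ) := ⟨_, rfl⟩
  have hρ0 : 0 < ρ := by linarith
  have hl1 : l < 1 := by
    rw [hl]
    apply max_lt hq1
    rw [div_lt_one hρ0]; exact hρ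
  have hlq : q ≤ l := by rw [hl]; exact le_max_left _ _
  have hlρ : 1 / ρ ≤ l := by rw [hl]; exact le_max_right _ _
  have hl0 : 0 < l := lt_of_lt_of_le hq0 hlq
  refine ⟨l, hl0, hl1, fun m hκm θ r hgc2 => ?_⟩
  have hA0 := Ac_nonneg B δ F m s0
  have h1 := Tc_le B δ F Rich (Gd B c) κ c q hc0.le (by linarith) hq0 hq1.le hR (fun θ h => h) m s0 θ r
  have h2 := Uc_le B δ F Rich (Gd B c) κ c q C hc0.le (by linarith) hq0 hC0 (by rw [hq]) hR hG.step m s0 θ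
  have h3 := Nc_le B δ F Rich (Gd B c) κ ρ hρ.le m s0 θ r
  have hN0 := Nc_nonneg B δ F Rich (Gd B c) κ m s0 θ r
  have h4 : Zc B δ F Rich ρ m s0 ≤ C ^ 2 * ((m : ℝ) + 1) ^ k * Ac B δ F m s0 := by
    refine (hG.zc m).trans ?_
    have e1 := hG.low m hκm
    calc C * ((m : ℝ) + 1) ^ k * ρ ^ m ≤ C * ((m : ℝ) + 1) ^ k * (C * Ac B δ F m s0) := mul_le_mul_of_nonneg_left e1 (by positivity)
      _ = _ := by ring
  have h5 : ρ ^ r * Nc B δ F Rich (Gd B c) κ m s0 θ r ≤ C ^ 2 * ((m : ℝ) + 1) ^ k * Ac B δ F m s0 := by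
    have e1 : ρ ^ (2 * r) * Nc B δ F Rich (Gd B c) κ m s0 θ r ≤ ρ ^ r * (C ^ 2 * ((m : ℝ) + 1) ^ k * Ac B δ F m s0) := by
      refine le_trans ?_ (h3.trans (mul_le_mul_of_nonneg_left h4 (by positivity)))
      exact mul_le_mul_of_nonneg_right (pow_le_pow_right₀ hρ.le hgc2) hN0
    rw [two_mul, pow_add, mul_assoc] at e1
    exact le_of_mul_le_mul_left e1 (by positivity)
  have h6 : Nc B δ F Rich (Gd B c) κ m s0 θ r ≤ l ^ r * (C ^ 2 * ((m : ℝ) + 1) ^ k * Ac B δ F m s0) := by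
    have e1 : Nc B δ F Rich (Gd B c) κ m s0 θ r ≤ (1 / ρ) ^ r * (C ^ 2 * ((m : ℝ) + 1) ^ k * Ac B δ F m s0) := by
      rw [one_div, inv_pow, inv_mul_eq_div, le_div_iff₀ (by positivity), mul_comm]
      exact h5
    refine e1.trans (mul_le_mul_of_nonneg_right (pow_le_pow_left₀ (by positivity) hlρ r) (by positivity))
  have h7 : q ^ r * Uc B δ F Rich (Gd B c) κ c q m s0 θ ≤ l ^ r * Ac B δ F m s0 :=
    mul_le_mul (pow_le_pow_left₀ hq0.le hlq r) h2 (Uc_nonneg B δ F Rich (Gd B c) κ c q (by linarith) hq0 hR m s0 θ) (by positivity)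
  have : l ^ r * (1 + C ^ 2 * ((m : ℝ) + 1) ^ k) * Ac B δ F m s0 = l ^ r * Ac B δ F m s0 + l ^ r * (C ^ 2 * ((m : ℝ) + 1) ^ k * Ac B δ F m s0) := by ring
  linarith

/-- far from the integers for `B!` times the frequency implies good -/
lemma gd_of_far (B : ℕ) (hB : 2 ≤ B) (x : ℝ) (h : Mir.Far (1 / (B : ℝ) ^ 2) ((B.factorial : ℝ) * x)) :
    Gd B (4 * (1 / ((B : ℝ) ^ 2 * (B.factorial : ℝ))) ^ 2) x := by
  have hF0 : (0 : ℝ) < (B.factorial : ℝ) := by exact_mod_cast B.factorial_pos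
  have hB0 : (0 : ℝ) < B := by exact_mod_cast (by omega : 0 < B)
  apply gd_dist B _ _ (by positivity)
  intro d hd0 hdB n
  obtain ⟨e, he⟩ : d ∣ B.factorial := Nat.dvd_factorial hd0 hdB.le
  have he0 : 0 < e := by
    rcases Nat.eq_zero_or_pos e with h0 | h0
    · rw [h0, mul_zero] at he
      exact absurd he B.factorial_ne_zero
    · exact h0
  have heB : e ≤ B.factorial := by rw [he]; exact Nat.le_mul_of_pos_left e hd0
  have her : (0 : ℝ) < e := by exact_mod_cast he0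
  have e1 : (B.factorial : ℝ) = d * e := by exact_mod_cast he
  have e2 : (e : ℝ) * ((d : ℝ) * x - n) = (B.factorial : ℝ) * x - ((e * n : ℤ) : ℝ) := by
    rw [e1]; push_cast; ring
  have h2 : 1 / (B : ℝ) ^ 2 ≤ |(e : ℝ) * ((d : ℝ) * x - n)| := by
    rw [e2]
    exact h _
  rw [abs_mul, abs_of_pos her] at h2
  have h3 : (e : ℝ) * |(d : ℝ) * x - n| ≤ (B.factorial : ℝ) * |(d : ℝ) * x - n| :=
    mul_le_mul_of_nonneg_right (by exact_mod_cast heB) (abs_nonneg _)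
  rw [div_le_iff₀ (by positivity)]
  have h4 : 1 / (B : ℝ) ^ 2 ≤ (B.factorial : ℝ) * |(d : ℝ) * x - n| := h2.trans h3
  rw [div_le_iff₀ (by positivity)] at h4
  calc (1 : ℝ) ≤ (B.factorial : ℝ) * |(d : ℝ) * x - n| * (B : ℝ) ^ 2 := h4
    _ = _ := by ring

open Classical in
/-- the number of the good positions -/
lemma good_count (B : ℕ) (g : ℝ → Prop) (κ₀ m : ℕ) (θ : ℝ) :
    ((range m).filter (fun j : ℕ => g ((B : ℝ) ^ j * θ))).card ≤ gc B g κ₀ m θ + κ₀ := by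
  rw [gc_eq]
  rw [card_filter]
  have h1 : ∑ j ∈ range m, (if g ((B : ℝ) ^ j * θ) then 1 else 0) ≤
      ∑ j ∈ range m, ((if κ₀ + j + 1 ≤ m ∧ g ((B : ℝ) ^ j * θ) then 1 else 0) + (if m < κ₀ + j + 1 then 1 else 0)) := by
    apply sum_le_sum
    intro j _
    by_cases h : κ₀ + j + 1 ≤ m
    · by_cases h' : g ((B : ℝ) ^ j * θ)
      · rw [if_pos h', if_pos ⟨h, h'⟩]; omega
      · rw [if_neg h']; omega
    · rw [if_pos (show m < κ₀ + j + 1 by omega)]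
      split_ifs <;> omega
  refine h1.trans ?_
  rw [sum_add_distrib]
  apply Nat.add_le_add_left
  rw [← card_filter]
  have h2 : (range m).filter (fun j => m < κ₀ + j + 1) ⊆ Ico (m - κ₀) m := by
    intro j hj
    rw [mem_filter, mem_range] at hj
    rw [mem_Ico]
    omega
  refine (card_le_card h2).trans ?_
  rw [Nat.card_Ico]
  omega

/-- the accepted integers below `B ^ m` -/
noncomputable def Om (B : ℕ) (δ : σ → ℕ → σ) (F : σ → Prop) (s0 : σ) (m : ℕ) : Finset ℕ :=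
  open Classical in (range (B ^ m)).filter fun v => F (run B δ m s0 v)

lemma card_om (B : ℕ) (hB : 2 ≤ B) (δ : σ → ℕ → σ) (F : σ → Prop) (s0 : σ) (m : ℕ) :
    ((Om B δ F s0 m).card : ℝ) = Ac B δ F m s0 := by
  classical
  rw [Ac_eq B (by omega), ← sum_filter, sum_const, nsmul_eq_mul, mul_one]
  unfold Om
  congr!

lemma sum_om (B : ℕ) (hB : 2 ≤ B) (δ : σ → ℕ → σ) (F : σ → Prop) (s0 : σ) (m : ℕ) (hpos : 0 < Ac B δ F m s0) :
    ∑ _v : {v // v ∈ Om B δ F s0 m}, 1 / Ac B δ F m s0 = 1 := by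
  classical
  rw [sum_const, nsmul_eq_mul, card_univ, Fintype.card_coe, card_om B hB, mul_one_div, div_self hpos.ne']

/-- the characteristic function of a random accepted integer -/
lemma char_om (B : ℕ) (hB : 2 ≤ B) (δ : σ → ℕ → σ) (F : σ → Prop) (s0 : σ) (m : ℕ) (hpos : 0 < Ac B δ F m s0)
    (cc κκ : ℤ) (θ : ℝ) :
    ‖φ (fun _ : {v // v ∈ Om B δ F s0 m} => 1 / Ac B δ F m s0) (fun v => cc + κκ * (v.1 : ℕ)) θ‖ =
      1 / Ac B δ F m s0 * ‖Tc B δ F m s0 ((κκ : ℝ) * θ)‖ := by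
  classical
  have h0 : φ (fun _ : {v // v ∈ Om B δ F s0 m} => 1 / Ac B δ F m s0) (fun v => cc + κκ * (v.1 : ℕ)) θ =
      ∑ v ∈ Om B δ F s0 m, ((1 / Ac B δ F m s0 : ℝ) : ℂ) * ee (((cc + κκ * v : ℤ) : ℝ) * θ) := by
    rw [← Finset.sum_coe_sort (Om B δ F s0 m) (fun v : ℕ => ((1 / Ac B δ F m s0 : ℝ) : ℂ) * ee (((cc + κκ * v : ℤ) : ℝ) * θ))]
    rfl
  have h2 : ∑ v ∈ Om B δ F s0 m, ((1 / Ac B δ F m s0 : ℝ) : ℂ) * ee (((cc + κκ * v : ℤ) : ℝ) * θ) =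
      ((1 / Ac B δ F m s0 : ℝ) : ℂ) * ee ((cc : ℝ) * θ) * Tc B δ F m s0 ((κκ : ℝ) * θ) := by
    rw [Tc_eq B (by omega), mul_sum]
    unfold Om
    rw [sum_filter]
    apply sum_congr rfl
    intro v _
    split_ifs
    · rw [mul_assoc, ← ee_add]
      congr 2
      push_cast
      ring
    · rw [mul_zero]
  rw [h0, h2, norm_mul, norm_mul, norm_ee, mul_one, Complex.norm_real, Real.norm_eq_abs, abs_of_pos (by positivity)]

/-- the polynomial factor -/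
lemma poly_small (C : ℝ) (k : ℕ) (θ : ℝ) (hθ : 0 < θ) : ∃ m₀ : ℕ, ∀ m : ℕ, m₀ ≤ m → ∀ N : ℕ, 2 ^ m ≤ N →
    1 + C ^ 2 * ((m : ℝ) + 1) ^ k ≤ (N : ℝ) ^ θ := by
  obtain ⟨k1, hk1⟩ := poly_le (C ^ 2) (by positivity) k
  obtain ⟨N₁, hN₁⟩ := Pool.Agent.R501.SP.log_pow_le (k + 2) θ hθ
  refine ⟨k1 + N₁ + 2 * 2 ^ (k + 1) + 1, fun m hm N hN => ?_⟩
  have hmN : m ≤ N := (Nat.lt_pow_self (by omega)).le.trans hN
  have hN0 : (0 : ℝ) < N := by exact_mod_cast (by omega : 0 < N)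
  have h1 : (m : ℝ) * Real.log 2 ≤ Real.log N := by
    rw [← Real.log_pow]
    exact Real.log_le_log (by positivity) (by exact_mod_cast hN)
  have h2 := Real.log_two_gt_d9
  have hm0 : (0 : ℝ) ≤ m := Nat.cast_nonneg _
  have h3 : (m : ℝ) ≤ 2 * Real.log N := by nlinarith
  have h4 : (2 : ℝ) ^ (k + 1) ≤ Real.log N := by
    have : ((2 * 2 ^ (k + 1) : ℕ) : ℝ) ≤ m := by exact_mod_cast (by omega : 2 * 2 ^ (k + 1) ≤ m)
    push_cast at this
    linarith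
  have hl0 : 0 ≤ Real.log (N : ℝ) := Real.log_natCast_nonneg _
  calc 1 + C ^ 2 * ((m : ℝ) + 1) ^ k ≤ (m : ℝ) ^ (k + 1) := hk1 m (by omega)
    _ ≤ (2 * Real.log N) ^ (k + 1) := pow_le_pow_left₀ hm0 h3 _
    _ = 2 ^ (k + 1) * Real.log N ^ (k + 1) := mul_pow _ _ _
    _ ≤ Real.log N * Real.log N ^ (k + 1) := mul_le_mul_of_nonneg_right h4 (by positivity)
    _ = Real.log N ^ (k + 2) := by rw [← pow_succ']
    _ ≤ _ := hN₁ N (by omega)

/-- few large Fourier coefficients, the elements of an automatic set -/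
theorem few_aut (B : ℕ) (hB : 2 ≤ B) (δ : σ → ℕ → σ) (F : σ → Prop) (s0 : σ) (Rich : σ → Prop) (κ : ℕ) (C ρ : ℝ) (k : ℕ)
    (hG : Gro B δ F s0 Rich κ C ρ k) (hρ : 1 < ρ) (hR : ∀ s, Rich s → ∃ u v, u < v ∧ v < B ∧ δ s u = s ∧ δ s v = s)
    (κ₁ : ℝ) (hκ₁ : 0 < κ₁) : ∃ θ : ℝ, 0 < θ ∧ θ ≤ 1 ∧ ∀ μ : ℤ, μ ≠ 0 → ∃ m₀ : ℕ, ∀ m : ℕ, m₀ ≤ m → ∀ N : ℕ, B ^ m ≤ N →
    (N : ℝ) ≤ (B : ℝ) ^ ((1 + θ) * m) → ∀ cc : ℤ,
    FewLarge (fun _ : {v // v ∈ Om B δ F s0 m} => 1 / Ac B δ F m s0) (fun v => cc + μ * (v.1 : ℕ)) N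
      ((N : ℝ) ^ (-θ)) ((N : ℝ) ^ κ₁) := by
  classical
  have hBr : (2 : ℝ) ≤ B := by exact_mod_cast hB
  have hB0 : (0 : ℝ) < B := by linarith
  have hF1 : (1 : ℝ) ≤ (B.factorial : ℝ) := by exact_mod_cast B.factorial_pos
  have hC1 := hG.C1
  have hC0 : 0 < C := by linarith
  obtain ⟨c, hc⟩ : ∃ c, c = 4 * (1 / ((B : ℝ) ^ 2 * (B.factorial : ℝ))) ^ 2 := ⟨_, rfl⟩
  have hc0 : 0 < c := by rw [hc]; positivity
  have hc1 : c ≤ 1 / 4 := by
    rw [hc]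
    have e1 : (4 : ℝ) ≤ (B : ℝ) ^ 2 * (B.factorial : ℝ) := by nlinarith
    have e2 : 1 / ((B : ℝ) ^ 2 * (B.factorial : ℝ)) ≤ 1 / 4 := one_div_le_one_div_of_le (by norm_num) e1
    have e3 : 0 ≤ 1 / ((B : ℝ) ^ 2 * (B.factorial : ℝ)) := by positivity
    nlinarith
  obtain ⟨l, hl0, hl1, hchar⟩ := char_pow B δ F s0 Rich κ C ρ k hG hρ hR c hc0 hc1
  obtain ⟨v, hv⟩ := exists_pow_lt_of_lt_one (show 0 < (1 / (B : ℝ)) ^ 2 by positivity) hl1
  obtain ⟨θ, hθ0, hθ1, h1⟩ := Pool.Agent.R501.SP.few_far B B.factorial (2 * v) κ hB B.factorial_pos 1 one_pos κ₁ hκ₁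
  refine ⟨θ, hθ0, hθ1, fun μ hμ => ?_⟩
  obtain ⟨k₀, h2⟩ := h1 μ hμ
  obtain ⟨m₁, hm₁⟩ := poly_small C k θ hθ0
  refine ⟨k₀ + m₁ + κ + 1, fun m hm N hN1 hN2 cc S hS hsep => ?_⟩
  have hN0 : (0 : ℝ) < N := by
    have : 1 ≤ B ^ m := Nat.one_le_pow _ _ (by omega)
    exact_mod_cast (by omega : 0 < N)
  have hpos : 0 < Ac B δ F m s0 := by
    have h1 := hG.low m (by omega)
    have h2 : 0 < ρ ^ m := by positivity
    by_contra hcon
    push Not at hcon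
    have h3 : C * Ac B δ F m s0 ≤ 0 := mul_nonpos_of_nonneg_of_nonpos hC0.le hcon
    linarith
  refine h2 m (by omega) N hN1 hN2 S (fun a ha => ?_) hsep
  obtain ⟨g1, g2, h3⟩ := hS a ha
  refine ⟨g1, g2, fun n _ hthr => ?_⟩
  rw [char_om B hB δ F s0 m hpos] at h3
  by_contra hcon
  push Not at hcon
  have hgood : Mir.farCount B B.factorial m ((μ : ℝ) * a) ≤ gc B (Gd B c) κ m ((μ : ℝ) * a) + κ := by
    refine le_trans ?_ (good_count B (Gd B c) κ m ((μ : ℝ) * a))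
    unfold Mir.farCount
    apply card_le_card
    intro j hj
    rw [mem_filter] at hj ⊢
    refine ⟨hj.1, ?_⟩
    rw [hc]
    exact gd_of_far B hB _ hj.2
  have h4 := hchar m (by omega) ((μ : ℝ) * a) (v * n) (by
    have : 2 * (v * n) = 2 * v * n := by ring
    omega)
  have h5 := hm₁ m (by omega) N (le_trans (Nat.pow_le_pow_left hB m) hN1)
  have h6 : l ^ (v * n) ≤ (1 / (B : ℝ)) ^ n * (1 / (B : ℝ)) ^ n := by
    rw [pow_mul, ← mul_pow, ← pow_two]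
    exact pow_le_pow_left₀ (by positivity) hv.le _
  have h7 : (1 / (B : ℝ)) ^ n * (1 / (B : ℝ)) ^ n * (1 + C ^ 2 * ((m : ℝ) + 1) ^ k) ≤ (N : ℝ) ^ (-θ) := by
    have e1 : (1 / (B : ℝ)) ^ n * (1 + C ^ 2 * ((m : ℝ) + 1) ^ k) ≤ 1 := by
      calc (1 / (B : ℝ)) ^ n * (1 + C ^ 2 * ((m : ℝ) + 1) ^ k) ≤ (N : ℝ) ^ (-θ) * (N : ℝ) ^ θ :=
            mul_le_mul hthr h5 (by positivity) (by positivity)
        _ = 1 := by rw [← Real.rpow_add hN0, neg_add_cancel, Real.rpow_zero]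
    calc (1 / (B : ℝ)) ^ n * (1 / (B : ℝ)) ^ n * (1 + C ^ 2 * ((m : ℝ) + 1) ^ k)
        = (1 / (B : ℝ)) ^ n * ((1 / (B : ℝ)) ^ n * (1 + C ^ 2 * ((m : ℝ) + 1) ^ k)) := by ring
      _ ≤ (1 / (B : ℝ)) ^ n * 1 := mul_le_mul_of_nonneg_left e1 (by positivity)
      _ ≤ _ := by rw [mul_one]; exact hthr
  have h8 : 1 / Ac B δ F m s0 * ‖Tc B δ F m s0 ((μ : ℝ) * a)‖ ≤ l ^ (v * n) * (1 + C ^ 2 * ((m : ℝ) + 1) ^ k) := by
    rw [one_div, inv_mul_eq_div, div_le_iff₀ hpos]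
    exact h4
  have h9 : l ^ (v * n) * (1 + C ^ 2 * ((m : ℝ) + 1) ^ k) ≤
      (1 / (B : ℝ)) ^ n * (1 / (B : ℝ)) ^ n * (1 + C ^ 2 * ((m : ℝ) + 1) ^ k) :=
    mul_le_mul_of_nonneg_right h6 (by positivity)
  linarith

open Classical in
/-- from the random accepted integers to the automatic set -/
lemma transfer (b : ℕ) {σ' : Type} (M : DFA ℕ σ') (B : ℕ) (δ : σ → ℕ → σ) (F : σ → Prop) (s0 : σ) (κ : ℕ) (C ρ : ℝ) (k : ℕ)
    (hB2 : 2 ≤ B) (hG : Gro B δ F s0 (R1 B δ) κ C ρ k)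
    (hrun : ∀ m v, v < B ^ m → (F (run B δ m s0 v) ↔ Nat.digits b v ∈ M.accepts)) (N n : ℕ) (hκn : κ ≤ n)
    (hN1 : B ^ n ≤ N) (hN2 : N < B ^ (n + 1)) (hpos : 0 < Ac B δ F (n + 1) s0) (E : ℕ → Prop) :
    (((range N).filter (fun v : ℕ => Nat.digits b v ∈ M.accepts ∧ E v)).card : ℝ) ≤
        C * (((range N).filter fun v => Nat.digits b v ∈ M.accepts).card : ℝ) *
          ∑ _v ∈ (univ : Finset {v // v ∈ Om B δ F s0 (n + 1)}).filter (fun v => E v.1), 1 / Ac B δ F (n + 1) s0 := by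
  have hC1 := hG.C1
  have hC0 : 0 < C := by linarith
  have h3 := hG.step n hκn s0
  have h4 : Ac B δ F n s0 ≤ (((range N).filter fun v => Nat.digits b v ∈ M.accepts).card : ℝ) := by
    have e1 : Ac B δ F n s0 = (((range (B ^ n)).filter fun v => Nat.digits b v ∈ M.accepts).card : ℝ) := by
      rw [Ac_eq B (by omega), ← sum_filter, sum_const, nsmul_eq_mul, mul_one]
      congr 2
      apply filter_congr
      intro v hv
      exact hrun n v (mem_range.1 hv)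
    rw [e1]
    exact_mod_cast card_le_card (filter_subset_filter _ (range_mono hN1))
  rw [sum_const, nsmul_eq_mul]
  have h5 : ((range N).filter (fun v : ℕ => Nat.digits b v ∈ M.accepts ∧ E v)).card ≤
      ((univ : Finset {v // v ∈ Om B δ F s0 (n + 1)}).filter (fun v => E v.1)).card := by
    have e1 : ((range N).filter (fun v : ℕ => Nat.digits b v ∈ M.accepts ∧ E v)) ⊆
        ((univ : Finset {v // v ∈ Om B δ F s0 (n + 1)}).filter (fun v => E v.1)).image (fun v => v.1) := by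
      intro v hv
      rw [mem_filter, mem_range] at hv
      rw [mem_image]
      have hv2 : v < B ^ (n + 1) := hv.1.trans hN2
      have hv3 : v ∈ Om B δ F s0 (n + 1) := by
        unfold Om
        rw [mem_filter, mem_range]
        exact ⟨hv2, (hrun (n + 1) v hv2).2 hv.2.1⟩
      exact ⟨⟨v, hv3⟩, by rw [mem_filter]; exact ⟨mem_univ _, hv.2.2⟩, rfl⟩
    exact (card_le_card e1).trans card_image_le
  have h6 : Ac B δ F (n + 1) s0 ≤ C * (((range N).filter fun v => Nat.digits b v ∈ M.accepts).card : ℝ) :=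
    h3.trans (mul_le_mul_of_nonneg_left h4 hC0.le)
  have h7 : (((range N).filter (fun v : ℕ => Nat.digits b v ∈ M.accepts ∧ E v)).card : ℝ) ≤
      (((univ : Finset {v // v ∈ Om B δ F s0 (n + 1)}).filter (fun v => E v.1)).card : ℝ) := by exact_mod_cast h5
  obtain ⟨X, hX⟩ : ∃ X : ℝ, X = (((univ : Finset {v // v ∈ Om B δ F s0 (n + 1)}).filter (fun v => E v.1)).card : ℝ) := ⟨_, rfl⟩
  rw [← hX] at h7 ⊢
  refine h7.trans ?_
  have hX0 : 0 ≤ X := by rw [hX]; positivity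
  calc X = Ac B δ F (n + 1) s0 * (X * (1 / Ac B δ F (n + 1) s0)) := by field_simp
    _ ≤ _ := mul_le_mul_of_nonneg_right h6 (by positivity)

end Pool.Agent.R557.AD
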