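import Mathlib

set_option autoImplicit false

/-! Scales: the logarithm of `N` and the integer `⌈log N⌉`. -/

namespace Pool.Agent.R557.AD

lemma log_pow_le' (C : ℕ) (θ : ℝ) (hθ : 0 < θ) : ∃ N₁ : ℕ, ∀ N : ℕ, N₁ ≤ N → Real.log N ^ C ≤ (N : ℝ) ^ θ := by
  have h := (isLittleO_log_rpow_rpow_atTop (C : ℝ) hθ).bound (show (0 : ℝ) < 1 by norm_num)
  have h2 := (tendsto_natCast_atTop_atTop (R := ℝ)).eventually h
  obtain ⟨x0, hx0⟩ := Filter.eventually_atTop.1 h2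
  refine ⟨x0 + 1, fun N hN => ?_⟩
  have h3 := hx0 N (by omega)
  have hN0 : (0 : ℝ) < N := by exact_mod_cast (by omega : 0 < N)
  have hl : 0 ≤ Real.log (N : ℝ) := Real.log_natCast_nonneg _
  rw [Real.rpow_natCast, one_mul, Real.norm_of_nonneg (by positivity), Real.norm_of_nonneg (by positivity)] at h3
  exact h3

lemma log_large (R : ℝ) : ∃ N₁ : ℕ, ∀ N : ℕ, N₁ ≤ N → R ≤ Real.log N := by
  have h := (Real.tendsto_log_atTop.comp (tendsto_natCast_atTop_atTop (R := ℝ))).eventually_ge_atTop R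
  obtain ⟨N₁, hN₁⟩ := Filter.eventually_atTop.1 h
  exact ⟨N₁, fun N hN => hN₁ N hN⟩

/-- the scale -/
lemma scale_log (B m R : ℕ) (ε : ℝ) (hε : 0 < ε) : ∃ N₀ : ℕ, ∀ N : ℕ, N₀ ≤ N → ∃ k : ℕ, R ≤ k ∧
    (R : ℝ) ≤ Real.log N ∧ Real.log N ≤ k ∧ (k : ℝ) ≤ 2 * Real.log N ∧
    1 ≤ Real.log ((B + 1) * N : ℕ) ∧ Real.log ((B + 1) * N : ℕ) ≤ (k : ℝ) ^ 2 ∧
    ((⌊(N : ℝ) ^ (1 - ε)⌋₊ : ℕ) : ℝ) * (k : ℝ) ^ m ≤ ((B + 1) * N : ℕ) ∧
    ∀ U : ℕ, (((B + 1) * N : ℕ) : ℝ) / (k : ℝ) ^ (U + 1) ≤ N / (k : ℝ) ^ U := by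
  obtain ⟨N₁, h1⟩ := log_pow_le' (m + 1) ε hε
  obtain ⟨N₂, h2⟩ := log_large ((R : ℝ) + 2 ^ m + Real.log ((B : ℝ) + 1) + B + 4)
  refine ⟨N₁ + N₂ + 1, fun N hN => ?_⟩
  have hlog := h2 N (by omega)
  have hpow := h1 N (by omega)
  have hN1 : (1 : ℝ) ≤ N := by exact_mod_cast (by omega : 1 ≤ N)
  have hN0 : (0 : ℝ) < N := by linarith
  obtain ⟨L, hL⟩ : ∃ L, L = Real.log (N : ℝ) := ⟨_, rfl⟩
  rw [← hL] at hlog hpow ⊢
  have hB0 : 0 ≤ Real.log ((B : ℝ) + 1) := Real.log_nonneg (by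
    have : (0 : ℝ) ≤ B := Nat.cast_nonneg _
    linarith)
  have hR0 : (0 : ℝ) ≤ R := Nat.cast_nonneg _
  have hBn : (0 : ℝ) ≤ B := Nat.cast_nonneg _
  have h2m : (0 : ℝ) < 2 ^ m := by positivity
  obtain ⟨k, hk⟩ : ∃ k, k = ⌈L⌉₊ := ⟨_, rfl⟩
  have hk1 : L ≤ k := by rw [hk]; exact Nat.le_ceil _
  have hk2 : (k : ℝ) ≤ 2 * L := by
    rw [hk]
    have := Nat.ceil_lt_add_one (show 0 ≤ L by linarith)
    linarith
  have hk0 : (0 : ℝ) < k := by linarith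
  have hX : Real.log ((B + 1) * N : ℕ) = Real.log ((B : ℝ) + 1) + L := by
    push_cast
    rw [Real.log_mul (by positivity) (by positivity), hL]
  refine ⟨k, ?_, by linarith, hk1, hk2, ?_, ?_, ?_, ?_⟩
  · have : (R : ℝ) ≤ k := by linarith
    exact_mod_cast this
  · rw [hX]; linarith
  · rw [hX]
    nlinarith
  · have e1 : ((⌊(N : ℝ) ^ (1 - ε)⌋₊ : ℕ) : ℝ) ≤ (N : ℝ) ^ (1 - ε) := Nat.floor_le (by positivity)
    have e2 : (k : ℝ) ^ m ≤ L ^ (m + 1) := by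
      calc (k : ℝ) ^ m ≤ (2 * L) ^ m := pow_le_pow_left₀ hk0.le hk2 _
        _ = 2 ^ m * L ^ m := mul_pow _ _ _
        _ ≤ L * L ^ m := mul_le_mul_of_nonneg_right (by linarith) (pow_nonneg (by linarith) _)
        _ = _ := by rw [pow_succ']
    calc ((⌊(N : ℝ) ^ (1 - ε)⌋₊ : ℕ) : ℝ) * (k : ℝ) ^ m ≤ (N : ℝ) ^ (1 - ε) * (N : ℝ) ^ ε :=
          mul_le_mul e1 (e2.trans hpow) (by positivity) (by positivity)
      _ = N := by rw [← Real.rpow_add hN0, sub_add_cancel, Real.rpow_one]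
      _ ≤ _ := by
          push_cast
          nlinarith
  · intro U
    rw [div_le_div_iff₀ (by positivity) (by positivity), pow_succ]
    push_cast
    have e1 : (B : ℝ) + 1 ≤ k := by linarith
    calc ((B : ℝ) + 1) * N * (k : ℝ) ^ U ≤ k * N * (k : ℝ) ^ U := by gcongr
      _ = _ := by ring

/-- comparison of the powers -/
lemma cmp_pow (k L : ℝ) (hL : 0 < L) (h1 : L ≤ k) (h2 : k ≤ 2 * L) (U : ℕ) (hU : (2 : ℝ) ^ U ≤ L) :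
    L ^ U ≤ k ^ U ∧ k ^ U ≤ L ^ (U + 1) := by
  refine ⟨pow_le_pow_left₀ hL.le h1 _, ?_⟩
  calc k ^ U ≤ (2 * L) ^ U := pow_le_pow_left₀ (by linarith) h2 _
    _ = 2 ^ U * L ^ U := mul_pow _ _ _
    _ ≤ L * L ^ U := mul_le_mul_of_nonneg_right hU (by positivity)
    _ = _ := by rw [pow_succ']

end Pool.Agent.R557.AD
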